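import Mathlib

set_option autoImplicit false

namespace Pool.Agent.H554Z.DD

/-- An orientation of the complete `r`-uniform hypergraph on the vertex set `Fin n`: every
`r`-element set `E` of vertices gets a linear ordering, given as a bijection from the positions
`0, …, r - 1` onto `E`. -/
def Orient (n r : ℕ) : Type :=
  ∀ E : {E : Finset (Fin n) // E.card = r}, Fin r ≃ {v : Fin n // v ∈ E.1}

/-- `S` is a directed `p`-dominating set: every vertex outside `S` lies in an edge whose first `p`
vertices all belong to `S`. -/
def IsDom {n r : ℕ} (p : ℕ) (D : Orient n r) (S : Finset (Fin n)) : Prop :=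
  ∀ u, u ∉ S → ∃ E : {E : Finset (Fin n) // E.card = r}, u ∈ E.1 ∧
    ∀ i : Fin r, i.val < p → (D E i).1 ∈ S

/-- The directed `p`-domination number of the orientation `D`. -/
noncomputable def gammaD {n r : ℕ} (p : ℕ) (D : Orient n r) : ℕ :=
  sInf {k | ∃ S : Finset (Fin n), IsDom p D S ∧ S.card = k}

/-- The upper directed `p`-domination number of the complete `r`-uniform hypergraph on `n`
vertices: the largest value of `gammaD p D` over all orientations `D`. -/
noncomputable def Gamma (n r p : ℕ) : ℕ :=
  sSup {k | ∃ D : Orient n r, gammaD p D = k}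

/-- Every tournament on `r` vertices has a dominating set of at most `p` vertices. -/
def TournDom (r p : ℕ) : Prop :=
  ∀ T : Fin r → Fin r → Prop, (∀ a b, a ≠ b → (T a b ↔ ¬ T b a)) →
    ∃ P : Finset (Fin r), P.card ≤ p ∧ ∀ u, u ∉ P → ∃ w ∈ P, T w u

end Pool.Agent.H554Z.DD
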