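import Mathlib

set_option autoImplicit false

namespace Pool.Agent.H554Z.DD

open Finset

lemma card_allTrue {X : Type} [Fintype X] [DecidableEq X] (A : Finset X) (c : Bool) :
    (univ.filter (fun φ : X → Bool => ∀ x ∈ A, φ x = c)).card * 2 ^ A.card = 2 ^ Fintype.card X := by
  have h : univ.filter (fun φ : X → Bool => ∀ x ∈ A, φ x = c) =
      Fintype.piFinset (fun x => if x ∈ A then {c} else univ) := by
    ext φ
    simp only [mem_filter, mem_univ, true_and, Fintype.mem_piFinset]
    constructor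
    · intro h x
      split_ifs with hx
      · simp [h x hx]
      · simp
    · intro h x hx
      have := h x
      simpa [hx] using this
  rw [h, Fintype.card_piFinset]
  have h2 : ∀ x : X, (if x ∈ A then ({c} : Finset Bool) else univ).card = if x ∈ A then 1 else 2 := by
    intro x
    split_ifs <;> simp
  simp only [h2]
  rw [Finset.prod_ite]
  simp only [prod_const_one, one_mul, prod_const]
  rw [← pow_add]
  congr 1
  have := Finset.card_filter_add_card_filter_not (s := (univ : Finset X)) (fun x => x ∈ A)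
  have h3 : (univ.filter (fun x => x ∈ A)) = A := by ext; simp
  rw [h3, Finset.card_univ] at this
  omega

/-- The fraction of tables with no row constant on `A`. -/
lemma card_bad {X Y : Type} [Fintype X] [DecidableEq X] [Fintype Y] [DecidableEq Y]
    (A : Finset X) (c : Bool) (a : ℕ) (hA : A.card ≤ a) :
    ((univ.filter (fun R : Y → X → Bool => ∀ y, ¬ ∀ x ∈ A, R y x = c)).card : ℝ) ≤
      (2 : ℝ) ^ (Fintype.card X * Fintype.card Y) *
        Real.exp (-(Fintype.card Y / 2 ^ a)) := by
  have h : univ.filter (fun R : Y → X → Bool => ∀ y, ¬ ∀ x ∈ A, R y x = c) =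
      Fintype.piFinset (fun _ : Y => univ.filter (fun φ : X → Bool => ¬ ∀ x ∈ A, φ x = c)) := by
    ext R
    simp only [mem_filter, mem_univ, true_and, Fintype.mem_piFinset]
  rw [h, Fintype.card_piFinset]
  simp only [prod_const, card_univ]
  have h1 := card_allTrue A c
  have h2 := Finset.card_filter_add_card_filter_not (s := (univ : Finset (X → Bool)))
    (fun φ : X → Bool => ∀ x ∈ A, φ x = c)
  rw [card_univ, Fintype.card_fun, Fintype.card_bool] at h2
  set g := (univ.filter (fun φ : X → Bool => ∀ x ∈ A, φ x = c)).card with hg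
  set b := (univ.filter (fun φ : X → Bool => ¬ ∀ x ∈ A, φ x = c)).card with hb
  have h1' : (g : ℝ) * 2 ^ A.card = 2 ^ Fintype.card X := by exact_mod_cast h1
  have h2' : (g : ℝ) + b = 2 ^ Fintype.card X := by exact_mod_cast h2
  have h3 : (2 : ℝ) ^ A.card ≤ 2 ^ a := pow_le_pow_right₀ (by norm_num) hA
  have h4 : (2 : ℝ) ^ Fintype.card X / 2 ^ a ≤ g := by
    rw [div_le_iff₀ (by positivity), ← h1']
    exact mul_le_mul_of_nonneg_left h3 (by positivity)
  have h5 : (b : ℝ) ≤ 2 ^ Fintype.card X * Real.exp (-(1 / 2 ^ a)) := by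
    have h6 := Real.add_one_le_exp (-(1 / (2 : ℝ) ^ a))
    have h7 : (2 : ℝ) ^ Fintype.card X * (-(1 / (2 : ℝ) ^ a) + 1) ≤
        2 ^ Fintype.card X * Real.exp (-(1 / 2 ^ a)) :=
      mul_le_mul_of_nonneg_left h6 (by positivity)
    have h8 : (2 : ℝ) ^ Fintype.card X * (-(1 / (2 : ℝ) ^ a) + 1) =
        2 ^ Fintype.card X - 2 ^ Fintype.card X / 2 ^ a := by ring
    linarith
  push_cast
  calc (b : ℝ) ^ Fintype.card Y ≤ (2 ^ Fintype.card X * Real.exp (-(1 / 2 ^ a))) ^ Fintype.card Y :=
        pow_le_pow_left₀ (by positivity) h5 _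
    _ = _ := by
        rw [mul_pow, ← pow_mul, ← Real.exp_nat_mul]
        congr 2
        ring

lemma card_small {X : Type} [Fintype X] [DecidableEq X] (a : ℕ) :
    (univ.filter (fun A : Finset X => A.card ≤ a)).card ≤ (Fintype.card X + 1) ^ a := by
  have h : univ.filter (fun A : Finset X => A.card ≤ a) ⊆
      (univ : Finset (Fin a → Option X)).image
        (fun f => univ.filter (fun x => ∃ i, f i = some x)) := by
    intro A hA
    rw [mem_filter] at hA
    rw [mem_image]
    refine ⟨fun i => if h : i.val < A.card then some (A.equivFin.symm ⟨i.val, h⟩).1 else none,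
      mem_univ _, ?_⟩
    ext x
    simp only [mem_filter, mem_univ, true_and]
    constructor
    · rintro ⟨i, hi⟩
      split_ifs at hi with h
      · rw [Option.some.injEq] at hi
        rw [← hi]
        exact (A.equivFin.symm ⟨i.val, h⟩).2
    · intro hx
      refine ⟨⟨(A.equivFin ⟨x, hx⟩).val, lt_of_lt_of_le (A.equivFin ⟨x, hx⟩).2 hA.2⟩, ?_⟩
      simp
  refine (card_le_card h).trans (card_image_le.trans ?_)
  simp

/-- A two-sided random table. -/
lemma exists_table (X Y : Type) [Fintype X] [DecidableEq X] [Fintype Y] [DecidableEq Y] (a b : ℕ)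
    (h : ((Fintype.card X + 1 : ℕ) : ℝ) ^ a * Real.exp (-(Fintype.card Y / 2 ^ a)) +
      ((Fintype.card Y + 1 : ℕ) : ℝ) ^ b * Real.exp (-(Fintype.card X / 2 ^ b)) < 1) :
    ∃ R : Y → X → Bool, (∀ A : Finset X, A.card ≤ a → ∃ y, ∀ x ∈ A, R y x = true) ∧
      (∀ B : Finset Y, B.card ≤ b → ∃ x, ∀ y ∈ B, R y x = false) := by
  classical
  by_contra hcon
  set F1 : Finset (Y → X → Bool) := (univ.filter (fun A : Finset X => A.card ≤ a)).biUnion
    (fun A => univ.filter (fun R : Y → X → Bool => ∀ y, ¬ ∀ x ∈ A, R y x = true)) with hF1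
  set F2 : Finset (X → Y → Bool) := (univ.filter (fun B : Finset Y => B.card ≤ b)).biUnion
    (fun B => univ.filter (fun R : X → Y → Bool => ∀ x, ¬ ∀ y ∈ B, R x y = false)) with hF2
  have hcover : (univ : Finset (Y → X → Bool)) ⊆ F1 ∪ F2.image (fun R y x => R x y) := by
    intro R _
    rw [mem_union]
    by_contra hR
    push Not at hR
    apply hcon
    refine ⟨R, fun A hA => ?_, fun B hB => ?_⟩
    · by_contra h1
      apply hR.1
      rw [hF1, mem_biUnion]
      exact ⟨A, by simpa using hA, by simpa using h1⟩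
    · by_contra h1
      apply hR.2
      rw [mem_image]
      refine ⟨fun x y => R y x, ?_, rfl⟩
      rw [hF2, mem_biUnion]
      exact ⟨B, by simpa using hB, by simpa using h1⟩
  have hc := (card_le_card hcover).trans ((card_union_le _ _).trans
    (Nat.add_le_add_left card_image_le _))
  have hu : (univ : Finset (Y → X → Bool)).card = 2 ^ (Fintype.card X * Fintype.card Y) := by
    rw [card_univ, Fintype.card_fun, Fintype.card_fun, Fintype.card_bool, ← pow_mul]
  rw [hu] at hc
  have hc' : (2 : ℝ) ^ (Fintype.card X * Fintype.card Y) ≤ F1.card + F2.card := by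
    exact_mod_cast hc
  have h1 : (F1.card : ℝ) ≤ ((Fintype.card X + 1 : ℕ) : ℝ) ^ a *
      ((2 : ℝ) ^ (Fintype.card X * Fintype.card Y) * Real.exp (-(Fintype.card Y / 2 ^ a))) := by
    have e1 : (F1.card : ℝ) ≤ ∑ A ∈ univ.filter (fun A : Finset X => A.card ≤ a),
        ((univ.filter (fun R : Y → X → Bool => ∀ y, ¬ ∀ x ∈ A, R y x = true)).card : ℝ) := by
      exact_mod_cast card_biUnion_le
    refine e1.trans ((sum_le_card_nsmul _ _ _ (fun A hA =>
      card_bad A true a (mem_filter.1 hA).2)).trans ?_)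
    rw [nsmul_eq_mul]
    refine mul_le_mul_of_nonneg_right ?_ (by positivity)
    exact_mod_cast card_small a
  have h2 : (F2.card : ℝ) ≤ ((Fintype.card Y + 1 : ℕ) : ℝ) ^ b *
      ((2 : ℝ) ^ (Fintype.card Y * Fintype.card X) * Real.exp (-(Fintype.card X / 2 ^ b))) := by
    have e1 : (F2.card : ℝ) ≤ ∑ B ∈ univ.filter (fun B : Finset Y => B.card ≤ b),
        ((univ.filter (fun R : X → Y → Bool => ∀ x, ¬ ∀ y ∈ B, R x y = false)).card : ℝ) := by
      exact_mod_cast card_biUnion_le
    refine e1.trans ((sum_le_card_nsmul _ _ _ (fun B hB =>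
      card_bad B false b (mem_filter.1 hB).2)).trans ?_)
    rw [nsmul_eq_mul]
    refine mul_le_mul_of_nonneg_right ?_ (by positivity)
    exact_mod_cast card_small b
  rw [mul_comm (Fintype.card Y)] at h2
  have hpos : (0 : ℝ) < 2 ^ (Fintype.card X * Fintype.card Y) := by positivity
  nlinarith

/-- The table with explicit sizes: `2 ^ (b + e)` columns and `2 ^ (a + e)` rows. -/
lemma exists_table' (a b e : ℕ) (h1 : a * (b + e + 1) + 1 ≤ 2 ^ e)
    (h2 : b * (a + e + 1) + 1 ≤ 2 ^ e) :
    ∃ R : Fin (2 ^ (a + e)) → Fin (2 ^ (b + e)) → Bool,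
      (∀ A : Finset (Fin (2 ^ (b + e))), A.card ≤ a → ∃ y, ∀ x ∈ A, R y x = true) ∧
      (∀ B : Finset (Fin (2 ^ (a + e))), B.card ≤ b → ∃ x, ∀ y ∈ B, R y x = false) := by
  have key : ∀ a b : ℕ, a * (b + e + 1) + 1 ≤ 2 ^ e →
      ((2 ^ (b + e) + 1 : ℕ) : ℝ) ^ a * Real.exp (-(((2 ^ (a + e) : ℕ) : ℝ) / 2 ^ a)) < 1 / 2 := by
    intro a b h
    have e1 : ((2 ^ (a + e) : ℕ) : ℝ) / 2 ^ a = 2 ^ e := by
      push_cast
      rw [pow_add]
      field_simp
    rw [e1]
    have h2e : (2 : ℝ) < Real.exp 1 := by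
      have := Real.exp_one_gt_d9
      linarith
    have e2 : ((2 ^ (b + e) + 1 : ℕ) : ℝ) ≤ Real.exp ((b + e + 1 : ℕ)) := by
      have : ((2 ^ (b + e) + 1 : ℕ) : ℝ) ≤ 2 ^ (b + e + 1) := by
        have : 2 ^ (b + e) + 1 ≤ 2 ^ (b + e + 1) := by
          have := Nat.one_le_two_pow (n := b + e)
          rw [pow_succ]; omega
        exact_mod_cast this
      refine this.trans ?_
      rw [← mul_one ((b + e + 1 : ℕ) : ℝ), Real.exp_nat_mul]
      exact pow_le_pow_left₀ (by norm_num) h2e.le _
    have e3 : ((2 ^ (b + e) + 1 : ℕ) : ℝ) ^ a ≤ Real.exp ((a * (b + e + 1) : ℕ)) := by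
      refine (pow_le_pow_left₀ (by positivity) e2 a).trans ?_
      rw [← Real.exp_nat_mul]
      push_cast
      exact le_rfl
    have e4 : ((a * (b + e + 1) : ℕ) : ℝ) + 1 ≤ 2 ^ e := by exact_mod_cast h
    calc _ ≤ Real.exp ((a * (b + e + 1) : ℕ)) * Real.exp (-(2 ^ e)) :=
          mul_le_mul_of_nonneg_right e3 (by positivity)
      _ ≤ Real.exp (-1) := by
          rw [← Real.exp_add]
          exact Real.exp_le_exp.2 (by linarith)
      _ < 1 / 2 := by
          rw [Real.exp_neg, one_div]
          exact inv_strictAnti₀ (by norm_num) h2e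
  apply exists_table
  simp only [Fintype.card_fin]
  have := key a b h1
  have := key b a h2
  linarith

end Pool.Agent.H554Z.DD
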