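import Mathlib
import Pool.Agent.H554Z.DD.Bip

set_option autoImplicit false
set_option linter.unusedSectionVars false

namespace Pool.Agent.H554Z.DD

open Finset

section
variable {X Y : Type} [Fintype X] [DecidableEq X] [DecidableEq Y]

/-- admissible level vectors -/
def GoodV (R : Y → X → Bool) (g K : ℕ) (v : (X → ℕ) × X × Y) : Prop :=
  v.1 v.2.1 = 0 ∧ (∀ x, x ≠ v.2.1 → 1 ≤ v.1 x) ∧ (∀ x, 2 ≤ v.1 x ↔ R v.2.2 x = true) ∧
    ∀ t, 3 ≤ t → t ≤ g + 1 → (univ.filter (fun x => t ≤ v.1 x)).card < K ^ (g + 1 - t)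

/-- edges between level vectors -/
def EdgeV (g : ℕ) (u v : (X → ℕ) × X × Y) : Prop :=
  (∀ x, v.1 x ≤ u.1 x + 1) ∧ g ≤ u.1 v.2.1

lemma GoodV.le {R : Y → X → Bool} {g K : ℕ} (hg : 2 ≤ g) {v : (X → ℕ) × X × Y}
    (h : GoodV R g K v) (x : X) : v.1 x ≤ g := by
  have := h.2.2.2 (g + 1) (by omega) le_rfl
  rw [Nat.sub_self, pow_zero, Nat.lt_one_iff, card_eq_zero] at this
  by_contra hx
  have h2 : x ∈ univ.filter (fun x => g + 1 ≤ v.1 x) := by
    simp only [mem_filter, mem_univ, true_and]; omega
  rw [this] at h2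
  exact notMem_empty _ h2

lemma exists_dominator (R : Y → X → Bool) (g k : ℕ) (hg : 2 ≤ g)
    (hA : ∀ A : Finset X, A.card ≤ (k + 1) ^ (g - 1) → ∃ y, ∀ x ∈ A, R y x = true)
    (hB : ∀ B : Finset Y, B.card ≤ k + 1 → ∃ x, ∀ y ∈ B, R y x = false)
    {ι : Type} (S : Finset ι) (hS : S.card ≤ k) (v : ι → (X → ℕ) × X × Y)
    (hv : ∀ j, GoodV R g (k + 1) (v j)) :
    ∃ u, GoodV R g (k + 1) u ∧ ∀ j ∈ S, EdgeV g u (v j) := by
  classical
  set m : X → ℕ := fun x => max (S.sup (fun j => (v j).1 x) - 1)
    (if x ∈ S.image (fun j => (v j).2.1) then g else 0) with hm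
  have hcount : ∀ t, 2 ≤ t → t ≤ g + 1 →
      (univ.filter (fun x => t ≤ m x)).card < (k + 1) ^ (g + 1 - t) := by
    intro t ht2 htg
    rcases Nat.eq_or_lt_of_le htg with rfl | hlt
    · rw [Nat.sub_self, pow_zero, Nat.lt_one_iff, card_eq_zero, filter_eq_empty_iff]
      intro x _
      have h1 : S.sup (fun j => (v j).1 x) ≤ g := Finset.sup_le (fun j _ => (hv j).le hg x)
      simp only [hm]
      split_ifs <;> omega
    · have hsub : univ.filter (fun x => t ≤ m x) ⊆
          S.biUnion (fun j => univ.filter (fun x => t + 1 ≤ (v j).1 x)) ∪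
            S.image (fun j => (v j).2.1) := by
        intro x hx
        rw [mem_filter] at hx
        rw [mem_union]
        by_cases hz : x ∈ S.image (fun j => (v j).2.1)
        · exact Or.inr hz
        · left
          have h1 := hx.2
          simp only [hm, if_neg hz] at h1
          have h2 : t < S.sup (fun j => (v j).1 x) := by omega
          obtain ⟨j, hj, h3⟩ := Finset.lt_sup_iff.1 h2
          exact mem_biUnion.2 ⟨j, hj, by simp only [mem_filter, mem_univ, true_and]; omega⟩
      have h1 : (S.biUnion (fun j => univ.filter (fun x => t + 1 ≤ (v j).1 x))).card ≤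
          S.card * ((k + 1) ^ (g - t) - 1) := by
        refine card_biUnion_le.trans ?_
        rw [← smul_eq_mul]
        refine sum_le_card_nsmul _ _ _ (fun j _ => ?_)
        have := (hv j).2.2.2 (t + 1) (by omega) (by omega)
        rw [show g + 1 - (t + 1) = g - t by omega] at this
        omega
      have h2 : (S.image (fun j => (v j).2.1)).card ≤ S.card := card_image_le
      have h3 := (card_le_card hsub).trans (card_union_le _ _)
      have h4 : 1 ≤ (k + 1) ^ (g - t) := Nat.one_le_pow _ _ (by omega)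
      rw [show g + 1 - t = (g - t) + 1 by omega, pow_succ]
      obtain ⟨q, hq⟩ : ∃ q, (k + 1) ^ (g - t) = q + 1 := ⟨_, (Nat.sub_add_cancel h4).symm⟩
      rw [hq] at h1 ⊢
      simp only [Nat.add_sub_cancel] at h1
      have h5 : S.card * q ≤ k * q := Nat.mul_le_mul_right _ hS
      nlinarith
  obtain ⟨y, hy⟩ := hA (univ.filter (fun x => 2 ≤ m x)) (by
    have := hcount 2 le_rfl (by omega)
    rw [show g + 1 - 2 = g - 1 by omega] at this
    exact this.le)
  have hy' : ∀ x, 2 ≤ m x → R y x = true := fun x hx => hy x (by simpa using hx)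
  obtain ⟨z, hz⟩ := hB (insert y (S.image (fun j => (v j).2.2))) (by
    refine (card_insert_le _ _).trans ?_
    have : (S.image (fun j => (v j).2.2)).card ≤ S.card := card_image_le
    omega)
  have hzy : R y z = false := hz y (mem_insert_self _ _)
  refine ⟨(fun x => if x = z then 0 else if R y x = true then max 2 (m x) else 1, z, y),
    ⟨by simp, ?_, ?_, ?_⟩, ?_⟩
  · intro x hx
    simp only at hx ⊢
    rw [if_neg hx]
    split_ifs <;> omega
  · intro x
    simp only
    by_cases hx : x = z
    · subst hx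
      simp [hzy]
    · rw [if_neg hx]
      split_ifs with h
      · simp [h]
      · simp [h]
  · intro t ht htg
    refine lt_of_le_of_lt (card_le_card ?_) (hcount t (by omega) htg)
    intro x hx
    simp only [mem_filter, mem_univ, true_and] at hx ⊢
    split_ifs at hx <;> omega
  · intro j hj
    have hsup : ∀ x, (v j).1 x ≤ S.sup (fun j => (v j).1 x) := fun x =>
      Finset.le_sup (f := fun j => (v j).1 x) hj
    have hmx : ∀ x, (v j).1 x ≤ m x + 1 := by
      intro x
      have := hsup x
      simp only [hm]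
      omega
    constructor
    · intro x
      simp only
      by_cases hx : x = z
      · subst hx
        have h1 := hz (v j).2.2 (mem_insert_of_mem (mem_image_of_mem _ hj))
        have h2 := (hv j).2.2.1 x
        rw [h1] at h2
        simp only [Bool.false_eq_true, iff_false] at h2
        simp only [if_true]
        omega
      · rw [if_neg hx]
        have h1 := hmx x
        split_ifs with h
        · omega
        · have : ¬ 2 ≤ m x := fun h2 => h (hy' x h2)
          omega
    · simp only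
      have h1 : g ≤ m (v j).2.1 := by
        simp only [hm]
        rw [if_pos (mem_image_of_mem _ hj)]
        omega
      have h2 := hy' (v j).2.1 (by omega)
      have h3 : (v j).2.1 ≠ z := by
        intro h
        rw [h, hzy] at h2
        exact absurd h2 (by simp)
      rw [if_neg h3, if_pos h2]
      omega

lemma exists_source {ι : Type} (g : ℕ) (v : ι → (X → ℕ) × X × Y) (hv : ∀ j, (v j).1 (v j).2.1 = 0)
    (E : Finset ι) (hne : E.Nonempty) (hE : E.card ≤ g) :
    ∃ a ∈ E, ∀ b ∈ E, ¬ EdgeV g (v b) (v a) := by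
  classical
  by_contra hcon
  push Not at hcon
  choose f hfE hf using hcon
  let F : E → E := fun a => ⟨f a.1 a.2, hfE a.1 a.2⟩
  have hF : ∀ a : E, EdgeV g (v (F a).1) (v a.1) := fun a => hf a.1 a.2
  obtain ⟨a0, ha0⟩ := hne
  have hcard : Fintype.card E < Fintype.card (Fin (g + 1)) := by
    simp only [Fintype.card_coe, Fintype.card_fin]; omega
  obtain ⟨i, j, hij, heq⟩ := Fintype.exists_ne_map_eq_of_card_lt
    (fun i : Fin (g + 1) => F^[i.val] ⟨a0, ha0⟩) hcard
  have hiter : ∀ (l : ℕ) (a : E) (x : X), (v a.1).1 x ≤ (v (F^[l] a).1).1 x + l := by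
    intro l
    induction l with
    | zero => intro a x; simp
    | succ l ih =>
      intro a x
      rw [Function.iterate_succ_apply']
      have h1 := ih a x
      have h2 := (hF (F^[l] a)).1 x
      omega
  have key : ∀ i j : Fin (g + 1), i.val < j.val →
      F^[i.val] ⟨a0, ha0⟩ = F^[j.val] ⟨a0, ha0⟩ → False := by
    intro i j hlt heq
    obtain ⟨l, hl⟩ : ∃ l, j.val = l + 1 + i.val := ⟨j.val - i.val - 1, by omega⟩
    set w := F^[i.val] ⟨a0, ha0⟩ with hw
    have h1 : F^[l] (F w) = w := by
      rw [← Function.iterate_succ_apply, hw, ← Function.iterate_add_apply, ← hl]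
      exact heq.symm
    have h2 := hiter l (F w) (v w.1).2.1
    rw [h1, hv] at h2
    have h3 := (hF w).2
    have := j.2
    omega
  rcases lt_or_gt_of_ne (fun h => hij (Fin.ext h)) with h | h
  · exact key i j h heq
  · exact key j i h heq.symm

lemma card_goodV [Fintype Y] (R : Y → X → Bool) (g K : ℕ) (hg : 2 ≤ g) :
    Finite {v // GoodV R g K v} ∧ Nat.card {v // GoodV R g K v} ≤
      Fintype.card X * (Fintype.card Y * (Fintype.card X * (g + 1) + 1) ^ (K ^ (g - 2))) := by
  classical
  let code : {v // GoodV R g K v} →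
      X × Y × {A : Finset (X × Fin (g + 1)) // A ∈ univ.filter
        (fun A : Finset (X × Fin (g + 1)) => A.card ≤ K ^ (g - 2))} :=
    fun v => (v.1.2.1, v.1.2.2, ⟨(univ.filter (fun x => 3 ≤ v.1.1 x)).image
      (fun x => (x, ⟨v.1.1 x, Nat.lt_succ_of_le (v.2.le hg x)⟩)), by
        simp only [mem_filter, mem_univ, true_and]
        refine card_image_le.trans ?_
        have := v.2.2.2.2 3 le_rfl (by omega)
        rw [show g + 1 - 3 = g - 2 by omega] at this
        exact this.le⟩)
  have hinj : Function.Injective code := by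
    rintro ⟨⟨l, z, y⟩, hv⟩ ⟨⟨l', z', y'⟩, hv'⟩ h
    simp only [code, Prod.mk.injEq, Subtype.mk.injEq] at h
    obtain ⟨rfl, rfl, h⟩ := h
    have h3 : ∀ x, 3 ≤ l x → l' x = l x := by
      intro x hx
      have h1 : (x, (⟨l x, Nat.lt_succ_of_le (hv.le hg x)⟩ : Fin (g + 1))) ∈
          (univ.filter (fun x => 3 ≤ l x)).image
            (fun x => (x, (⟨l x, Nat.lt_succ_of_le (hv.le hg x)⟩ : Fin (g + 1)))) :=
        mem_image.2 ⟨x, by simpa using hx, rfl⟩
      rw [h] at h1
      obtain ⟨x', _, h2⟩ := mem_image.1 h1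
      simp only [Prod.mk.injEq, Fin.mk.injEq] at h2
      obtain ⟨rfl, h2⟩ := h2
      exact h2
    have h3' : ∀ x, 3 ≤ l' x → l x = l' x := by
      intro x hx
      have h1 : (x, (⟨l' x, Nat.lt_succ_of_le (hv'.le hg x)⟩ : Fin (g + 1))) ∈
          (univ.filter (fun x => 3 ≤ l' x)).image
            (fun x => (x, (⟨l' x, Nat.lt_succ_of_le (hv'.le hg x)⟩ : Fin (g + 1)))) :=
        mem_image.2 ⟨x, by simpa using hx, rfl⟩
      rw [← h] at h1
      obtain ⟨x', _, h2⟩ := mem_image.1 h1
      simp only [Prod.mk.injEq, Fin.mk.injEq] at h2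
      obtain ⟨rfl, h2⟩ := h2
      exact h2
    have : l = l' := by
      funext x
      have a1 := h3 x
      have a2 := h3' x
      have a3 := hv.2.2.1 x
      have a4 := hv'.2.2.1 x
      have a5 : 2 ≤ l x ↔ 2 ≤ l' x := a3.trans a4.symm
      by_cases hx : x = z
      · subst hx
        have b1 := hv.1
        have b2 := hv'.1
        simp only at b1 b2
        omega
      · have b1 := hv.2.1 x hx
        have b2 := hv'.2.1 x hx
        simp only at b1 b2
        omega
    subst this
    rfl
  refine ⟨Finite.of_injective code hinj, (Nat.card_le_card_of_injective code hinj).trans ?_⟩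
  rw [Nat.card_eq_fintype_card, Fintype.card_prod, Fintype.card_prod, Fintype.card_coe]
  refine Nat.mul_le_mul_left _ (Nat.mul_le_mul_left _ ?_)
  have := card_small (X := X × Fin (g + 1)) (K ^ (g - 2))
  rw [Fintype.card_prod, Fintype.card_fin] at this
  exact this

end

/-- A digraph without directed cycles of length at most `g` in which any `k` vertices have a
common in-neighbour. -/
theorem exists_digraph (g k n : ℕ) (hg : 2 ≤ g) (hn : 2 ^ ((7 * g + 16) * (k + 1) ^ (g - 1)) ≤ n) :
    ∃ D : Fin n → Fin n → Prop,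
      (∀ E : Finset (Fin n), E.Nonempty → E.card ≤ g → ∃ a ∈ E, ∀ b ∈ E, ¬ D b a) ∧
      (∀ S : Finset (Fin n), S.card ≤ k → ∃ u, ∀ s ∈ S, D u s) := by
  classical
  set K := k + 1 with hK
  set m := g * K with hm
  have hK1 : 1 ≤ K := by omega
  have hKm : K ≤ m := by rw [hm]; nlinarith
  have hgm : g ≤ m := by rw [hm]; nlinarith
  have ha : K ^ (g - 1) ≤ 2 ^ m := by
    calc K ^ (g - 1) ≤ (2 ^ K) ^ (g - 1) := Nat.pow_le_pow_left (Nat.lt_two_pow_self).le _
      _ = 2 ^ (K * (g - 1)) := by rw [← pow_mul]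
      _ ≤ 2 ^ m := Nat.pow_le_pow_right (by norm_num) (by
          rw [hm, mul_comm]; exact Nat.mul_le_mul_right _ (by omega))
  have hm2 : m < 2 ^ m := Nat.lt_two_pow_self
  have hm1 : 2 ≤ m := by omega
  have he : 2 ^ (2 * m + 4) = 16 * (2 ^ m * 2 ^ m) := by
    rw [pow_add, two_mul, pow_add]; ring
  obtain ⟨R, hA, hB⟩ := exists_table' (K ^ (g - 1)) K (2 * m + 4) (by
    rw [he]
    have h1 : K + (2 * m + 4) + 1 ≤ 8 * 2 ^ m := by omega
    have h2 := Nat.mul_le_mul ha h1
    nlinarith) (by
    rw [he]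
    have h1 : K ^ (g - 1) + (2 * m + 4) + 1 ≤ 8 * 2 ^ m := by omega
    have h2 := Nat.mul_le_mul (hKm.trans hm2.le) h1
    nlinarith)
  obtain ⟨hfin, hcard⟩ := card_goodV R g K hg
  have hbound : Nat.card {v // GoodV R g K v} ≤ n := by
    refine hcard.trans (le_trans ?_ hn)
    simp only [Fintype.card_fin]
    have h1 : 2 ^ (K + (2 * m + 4)) * (g + 1) + 1 ≤ 2 ^ (K + (2 * m + 4) + (g + 1)) := by
      rw [pow_add 2 _ (g + 1)]
      have h2 : g + 1 < 2 ^ (g + 1) := Nat.lt_two_pow_self
      have h3 : 1 ≤ 2 ^ (K + (2 * m + 4)) := Nat.one_le_two_pow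
      nlinarith
    refine (Nat.mul_le_mul_left _ (Nat.mul_le_mul_left _ (Nat.pow_le_pow_left h1 _))).trans ?_
    rw [← pow_mul, ← pow_add, ← pow_add]
    refine Nat.pow_le_pow_right (by norm_num) ?_
    have h2 : K ^ (g - 1) = K * K ^ (g - 2) := by
      rw [show g - 1 = (g - 2) + 1 by omega, pow_succ, mul_comm]
    have h3 : 1 ≤ K ^ (g - 2) := Nat.one_le_pow _ _ hK1
    rw [h2, hm]
    set M := K ^ (g - 2)
    have h4 : K ≤ K * M := by nlinarith
    have h5 : g * K ≤ g * (K * M) := Nat.mul_le_mul_left _ h4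
    have h6 : M ≤ K * M := by nlinarith
    have h7 : g * M ≤ g * (K * M) := Nat.mul_le_mul_left _ h6
    nlinarith
  obtain ⟨u0, hu0, -⟩ := exists_dominator R g k hg hA hB (ι := Empty) ∅ (by simp)
    (fun e => e.elim) (fun e => e.elim)
  have hne : Nonempty {v // GoodV R g K v} := ⟨⟨u0, hu0⟩⟩
  have := Fintype.ofFinite {v // GoodV R g K v}
  obtain ⟨emb⟩ : Nonempty ({v // GoodV R g K v} ↪ Fin n) :=
    Function.Embedding.nonempty_of_card_le (by
      rw [← Nat.card_eq_fintype_card, Fintype.card_fin]; exact hbound)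
  have hsurj := Function.invFun_surjective emb.injective
  set π := Function.invFun emb
  refine ⟨fun u v => EdgeV g (π u).1 (π v).1, fun E hne hE => ?_, fun S hS => ?_⟩
  · exact exists_source g (fun j => (π j).1) (fun j => (π j).2.1) E hne hE
  · obtain ⟨u, hu, h⟩ := exists_dominator R g k hg hA hB S hS (fun j => (π j).1) (fun j => (π j).2)
    obtain ⟨u', hu'⟩ := hsurj ⟨u, hu⟩
    refine ⟨u', fun s hs => ?_⟩
    show EdgeV g (π u').1 (π s).1
    rw [hu']
    exact h s hs

end Pool.Agent.H554Z.DD
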