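import Mathlib
import Pool.Agent.H554Z.DD.Defs
import Pool.Agent.H554Z.DD.Level

set_option autoImplicit false

namespace Pool.Agent.H554Z.DD

open Finset

lemma gammaD_le_card {n r p : ℕ} (D : Orient n r) (S : Finset (Fin n)) (h : IsDom p D S) :
    gammaD p D ≤ S.card := Nat.sInf_le ⟨S, h, rfl⟩

lemma isDom_univ {n r p : ℕ} (D : Orient n r) : IsDom p D univ :=
  fun u hu => absurd (mem_univ u) hu

lemma exists_isDom {n r p : ℕ} (D : Orient n r) : ∃ S, IsDom p D S ∧ S.card = gammaD p D :=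
  Nat.sInf_mem (s := {k | ∃ S : Finset (Fin n), IsDom p D S ∧ S.card = k})
    ⟨_, univ, isDom_univ D, rfl⟩

lemma gammaD_le_Gamma {n r p : ℕ} (D : Orient n r) : gammaD p D ≤ Gamma n r p := by
  refine le_csSup ⟨n, ?_⟩ ⟨D, rfl⟩
  rintro k ⟨D', rfl⟩
  simpa using gammaD_le_card D' univ (isDom_univ D')

lemma Gamma_le {n r p k : ℕ} (h : ∀ D : Orient n r, gammaD p D ≤ k) : Gamma n r p ≤ k := by
  refine csSup_le' ?_
  rintro j ⟨D, rfl⟩
  exact h D

lemma exists_order {n r p : ℕ} (E P : Finset (Fin n)) (hE : E.card = r) (hPE : P ⊆ E)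
    (hP : P.card ≤ p) : ∃ e : Fin r ≃ {v : Fin n // v ∈ E},
      ∀ w ∈ P, ∃ i : Fin r, i.val < p ∧ (e i).1 = w := by
  set l := P.toList ++ (E \ P).toList with hl
  have hnd : l.Nodup := by
    rw [hl, List.nodup_append]
    refine ⟨nodup_toList _, nodup_toList _, ?_⟩
    intro a ha b hb hab
    rw [mem_toList] at ha hb
    subst hab
    exact (mem_sdiff.1 hb).2 ha
  have hlen : l.length = r := by
    rw [hl, List.length_append, length_toList, length_toList, card_sdiff_of_subset hPE, ← hE]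
    have := card_le_card hPE
    omega
  have hmem : ∀ v, v ∈ l ↔ v ∈ E := by
    intro v
    rw [hl, List.mem_append, mem_toList, mem_toList, mem_sdiff]
    constructor
    · rintro (h | h)
      · exact hPE h
      · exact h.1
    · intro h
      by_cases h2 : v ∈ P
      · exact Or.inl h2
      · exact Or.inr ⟨h, h2⟩
  refine ⟨(finCongr hlen.symm).trans ((hnd.getEquiv l).trans (Equiv.subtypeEquivRight hmem)), ?_⟩
  intro w hw
  obtain ⟨i, hi, hiw⟩ := List.getElem_of_mem (mem_toList.2 hw)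
  have hi' : i < P.card := by rwa [length_toList] at hi
  have hir : i < r := by
    have := card_le_card hPE
    omega
  refine ⟨⟨i, hir⟩, by simp only; omega, ?_⟩
  simp only [Equiv.trans_apply, finCongr_apply, List.Nodup.getEquiv, Equiv.coe_fn_mk,
    Equiv.subtypeEquivRight_apply_coe, List.get_eq_getElem, Fin.val_cast]
  rw [← hiw]
  exact List.getElem_append_left hi

/-- From a digraph to an orientation. -/
lemma lt_Gamma {n r p k : ℕ} (D : Fin n → Fin n → Prop) (hloop : ∀ u, ¬ D u u)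
    (hS : ∀ S : Finset (Fin n), S.card ≤ k → ∃ u, ∀ s ∈ S, D u s)
    (hE : ∀ E : Finset (Fin n), E.card = r → ∃ P ⊆ E, P.card ≤ p ∧
      ∀ u ∈ E, u ∉ P → ∃ w ∈ P, ¬ D u w) : k < Gamma n r p := by
  choose P hPE hPc hP using hE
  choose e he using fun E : {E : Finset (Fin n) // E.card = r} =>
    exists_order (p := p) E.1 (P E.1 E.2) E.2 (hPE E.1 E.2) (hPc E.1 E.2)
  refine lt_of_lt_of_le ?_ (gammaD_le_Gamma (p := p) (e : Orient n r))
  obtain ⟨S, hdom, hcard⟩ := exists_isDom (p := p) (e : Orient n r)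
  by_contra hcon
  obtain ⟨u, hu⟩ := hS S (by omega)
  have huS : u ∉ S := fun h => hloop u (hu u h)
  obtain ⟨E, huE, hfirst⟩ := hdom u huS
  have hPS : ∀ w ∈ P E.1 E.2, w ∈ S := by
    intro w hw
    obtain ⟨i, hi, hiw⟩ := he E w hw
    rw [← hiw]
    exact hfirst i hi
  obtain ⟨w, hw, hnd⟩ := hP E.1 E.2 u huE (fun h => huS (hPS u h))
  exact hnd (hu w (hPS w hw))

lemma lower_all {n r p k : ℕ} (hr : 2 ≤ r) (hp : 1 ≤ p)
    (hn : 2 ^ ((7 * r + 16) * (k + 1) ^ (r - 1)) ≤ n) : k < Gamma n r p := by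
  obtain ⟨D, hD1, hD2⟩ := exists_digraph r k n hr hn
  refine lt_Gamma D (fun u => ?_) hD2 (fun E hE => ?_)
  · obtain ⟨a, ha, h⟩ := hD1 {u} (singleton_nonempty u) (by simp; omega)
    rw [mem_singleton] at ha
    subst ha
    exact h a (mem_singleton_self a)
  · obtain ⟨a, ha, h⟩ := hD1 E (card_pos.1 (by omega)) hE.le
    exact ⟨{a}, by simpa using ha, by simpa using hp,
      fun u hu _ => ⟨a, mem_singleton_self a, h u hu⟩⟩

lemma lower_tourn {n r p k : ℕ} (hT : TournDom r p) (hn : 2 ^ (30 * (k + 1)) ≤ n) :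
    k < Gamma n r p := by
  obtain ⟨D, hD1, hD2⟩ := exists_digraph 2 k n le_rfl (by
    rw [show (7 * 2 + 16) * (k + 1) ^ (2 - 1) = 30 * (k + 1) by norm_num]; exact hn)
  have hloop : ∀ u, ¬ D u u := by
    intro u
    obtain ⟨a, ha, h⟩ := hD1 {u} (singleton_nonempty u) (by simp)
    rw [mem_singleton] at ha
    subst ha
    exact h a (mem_singleton_self a)
  have hasym : ∀ u v, D u v → ¬ D v u := by
    intro u v h1 h2
    obtain ⟨a, ha, h⟩ := hD1 {u, v} (insert_nonempty _ _) card_le_two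
    rw [mem_insert, mem_singleton] at ha
    rcases ha with rfl | rfl
    · exact h v (by simp) h2
    · exact h u (by simp) h1
  refine lt_Gamma D hloop hD2 (fun E hE => ?_)
  let e : Fin r ≃ {v : Fin n // v ∈ E} := (Finset.equivFinOfCardEq hE).symm
  obtain ⟨P, hPc, hP⟩ := hT (fun a b => D (e a).1 (e b).1 ∨ (¬ D (e b).1 (e a).1 ∧ a < b)) (by
    intro a b hab
    have h1 := hasym (e a).1 (e b).1
    have h2 : a < b ↔ ¬ b < a := by
      have : a.val ≠ b.val := fun h => hab (Fin.ext h)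
      simp only [Fin.lt_def]; omega
    generalize D (e a).1 (e b).1 = A at *
    generalize D (e b).1 (e a).1 = B at *
    generalize (a < b) = C at *
    generalize (b < a) = C' at *
    by_cases hA : A <;> by_cases hB : B <;> simp_all)
  refine ⟨P.image (fun a => (e a).1), ?_, card_image_le.trans hPc, ?_⟩
  · intro w hw
    obtain ⟨a, _, rfl⟩ := mem_image.1 hw
    exact (e a).2
  · intro u hu huP
    obtain ⟨w, hw, h⟩ := hP (e.symm ⟨u, hu⟩) (fun h => huP (mem_image.2 ⟨_, h, by simp⟩))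
    refine ⟨(e w).1, mem_image_of_mem _ hw, ?_⟩
    simp only [Equiv.apply_symm_apply] at h
    rcases h with h | h
    · exact hasym _ _ h
    · exact h.1

lemma tourn_aux {α : Type} [DecidableEq α] (T : α → α → Prop)
    (hT : ∀ a b, a ≠ b → (T a b ↔ ¬ T b a)) (p : ℕ) :
    ∀ U : Finset α, U.card + 2 ≤ 2 ^ (p + 1) →
      ∃ P : Finset α, P.card ≤ p ∧ ∀ u ∈ U, u ∉ P → ∃ w ∈ P, T w u := by
  classical
  induction p with
  | zero =>
    intro U hU
    have : U = ∅ := card_eq_zero.1 (by omega)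
    subst this
    exact ⟨∅, by simp, by simp⟩
  | succ p ih =>
    intro U hU
    rcases U.eq_empty_or_nonempty with rfl | hne
    · exact ⟨∅, by simp, by simp⟩
    have hsym : ∑ v ∈ U, (U.filter (fun u => u ≠ v ∧ T u v)).card =
        ∑ v ∈ U, (U.filter (fun u => u ≠ v ∧ T v u)).card := by
      simp only [card_filter]
      rw [sum_comm]
      refine sum_congr rfl (fun a _ => sum_congr rfl (fun b _ => ?_))
      simp only [ne_comm]
    have htot : ∀ v ∈ U, (U.filter (fun u => u ≠ v ∧ T u v)).card +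
        (U.filter (fun u => u ≠ v ∧ T v u)).card + 1 = U.card := by
      intro v hv
      have h1 := card_filter_add_card_filter_not (s := U.erase v) (fun u => T u v)
      have h2 : (U.erase v).filter (fun u => T u v) = U.filter (fun u => u ≠ v ∧ T u v) := by
        ext u; simp only [mem_filter, mem_erase]; tauto
      have h3 : (U.erase v).filter (fun u => ¬ T u v) = U.filter (fun u => u ≠ v ∧ T v u) := by
        ext u
        simp only [mem_filter, mem_erase]
        constructor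
        · rintro ⟨⟨h1, h2⟩, h3⟩
          exact ⟨h2, h1, (hT v u h1.symm).2 h3⟩
        · rintro ⟨h1, h2, h3⟩
          exact ⟨⟨h2, h1⟩, (hT v u h2.symm).1 h3⟩
      rw [h2, h3, card_erase_of_mem hv] at h1
      have := card_pos.2 hne
      omega
    obtain ⟨v, hv, hle⟩ := exists_le_of_sum_le hne hsym.le
    have h1 := htot v hv
    obtain ⟨P, hPc, hP⟩ := ih (U.filter (fun u => u ≠ v ∧ T u v)) (by
      rw [pow_succ] at hU
      omega)
    refine ⟨insert v P, (card_insert_le _ _).trans (by omega), fun u hu huP => ?_⟩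
    rw [mem_insert, not_or] at huP
    by_cases h : T u v
    · obtain ⟨w, hw, h2⟩ := hP u (mem_filter.2 ⟨hu, huP.1, h⟩) huP.2
      exact ⟨w, mem_insert_of_mem hw, h2⟩
    · exact ⟨v, mem_insert_self _ _, (hT v u (Ne.symm huP.1)).2 h⟩

lemma tournDom_of_le {r p : ℕ} (h : r + 2 ≤ 2 ^ (p + 1)) : TournDom r p := by
  intro T hT
  obtain ⟨P, hPc, hP⟩ := tourn_aux T hT p univ (by simpa using h)
  exact ⟨P, hPc, fun u hu => hP u (mem_univ u) hu⟩

end Pool.Agent.H554Z.DD
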