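import Mathlib
import Pool.Agent.H554Z.DD.Lower

set_option autoImplicit false

namespace Pool.Agent.H554Z.DD

open Finset

/-- `u` lies in the edge `E` but not among its first `p` vertices. -/
def Late {n r : ℕ} (p : ℕ) (D : Orient n r) (E : Finset (Fin n)) (u : Fin n) : Prop :=
  ∃ h : E.card = r, u ∈ E ∧ ∀ i : Fin r, i.val < p → (D ⟨E, h⟩ i).1 ≠ u

lemma exists_late {n r p : ℕ} (hp : p < r) (D : Orient n r) (E : Finset (Fin n)) (h : E.card = r) :
    ∃ u, Late p D E u := by
  refine ⟨(D ⟨E, h⟩ ⟨p, hp⟩).1, h, (D ⟨E, h⟩ ⟨p, hp⟩).2, fun i hi he => ?_⟩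
  have := (D ⟨E, h⟩).injective (Subtype.ext he)
  rw [this] at hi
  exact lt_irrefl _ hi

open Classical in
lemma exists_good_T {n r p : ℕ} (hp : p < r) (D : Orient n r) (U : Finset (Fin n))
    (hU : r ≤ U.card) : ∃ T ⊆ U, T.card = r - 1 ∧
      U.card - (r - 1) ≤ r * (U.filter (fun u => u ∉ T ∧ Late p D (insert u T) u)).card := by
  by_contra hcon
  push Not at hcon
  have hne : Nonempty (Fin n) := ⟨(card_pos.1 (by omega : 0 < U.card)).choose⟩
  choose! L hL using exists_late hp D
  have hinj : (powersetCard r U).card ≤ ((powersetCard (r - 1) U).sigma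
      (fun T => U.filter (fun u => u ∉ T ∧ Late p D (insert u T) u))).card := by
    refine card_le_card_of_injOn (fun E => ⟨E.erase (L E), L E⟩) ?_ ?_
    · intro E hE
      rw [mem_coe, mem_powersetCard] at hE
      obtain ⟨h, hmem, hlate⟩ := hL E hE.2
      simp only [mem_coe, mem_sigma, mem_powersetCard, mem_filter]
      refine ⟨⟨(erase_subset _ _).trans hE.1, by rw [card_erase_of_mem hmem, h]⟩, hE.1 hmem,
        notMem_erase _ _, ?_⟩
      rw [insert_erase hmem]
      exact hL E hE.2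
    · intro E hE E' hE' h
      rw [mem_coe, mem_powersetCard] at hE hE'
      simp only [Sigma.mk.injEq, heq_eq_eq] at h
      rw [← insert_erase (hL E hE.2).2.1, ← insert_erase (hL E' hE'.2).2.1, h.1, h.2]
  rw [card_sigma, card_powersetCard] at hinj
  have h1 : ∑ T ∈ powersetCard (r - 1) U,
      r * (U.filter (fun u => u ∉ T ∧ Late p D (insert u T) u)).card <
      ∑ T ∈ powersetCard (r - 1) U, (U.card - (r - 1)) := by
    refine sum_lt_sum_of_nonempty (powersetCard_nonempty.2 (by omega)) (fun T hT => ?_)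
    rw [mem_powersetCard] at hT
    exact hcon T hT.1 hT.2
  rw [← mul_sum, sum_const, card_powersetCard, smul_eq_mul] at h1
  have h2 := Nat.choose_succ_right_eq U.card (r - 1)
  rw [show r - 1 + 1 = r by omega] at h2
  have h3 := Nat.mul_le_mul_left r hinj
  rw [← h2, mul_comm (U.card.choose r)] at h1
  omega

lemma upper_log_aux {n r p : ℕ} (hp : p < r) (D : Orient n r) (m : ℕ) :
    ∀ U : Finset (Fin n), U.card = m → ∃ S : Finset (Fin n),
      (S.card : ℝ) ≤ r + r * r * Real.log m ∧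
      ∀ u ∈ U, u ∉ S → ∃ E : {E : Finset (Fin n) // E.card = r}, u ∈ E.1 ∧
        ∀ i : Fin r, i.val < p → (D E i).1 ∈ S := by
  classical
  induction m using Nat.strong_induction_on with
  | _ m ih =>
  intro U hUm
  have hlog : 0 ≤ Real.log m := Real.log_natCast_nonneg m
  by_cases hU : U.card < r
  · refine ⟨U, ?_, fun u hu hu' => absurd hu hu'⟩
    have : (U.card : ℝ) ≤ r := by exact_mod_cast hU.le
    have : (0 : ℝ) ≤ r * r * Real.log m := by positivity
    linarith
  push Not at hU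
  obtain ⟨T, hTU, hTc, hT⟩ := exists_good_T hp D U hU
  set G := U.filter (fun u => u ∉ T ∧ Late p D (insert u T) u) with hG
  set U' := (U \ T) \ G with hU'
  have hGs : G ⊆ U \ T := by
    intro u hu
    rw [hG, mem_filter] at hu
    exact mem_sdiff.2 ⟨hu.1, hu.2.1⟩
  have hc : U'.card + G.card + (r - 1) = m := by
    rw [hU', card_sdiff_of_subset hGs, card_sdiff_of_subset hTU, hTc]
    have := card_le_card hGs
    rw [card_sdiff_of_subset hTU, hTc] at this
    omega
  have hGpos : 0 < G.card := by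
    rcases Nat.eq_zero_or_pos G.card with h | h
    · rw [h] at hT; omega
    · exact h
  obtain ⟨S', hS'c, hS'⟩ := ih U'.card (by omega) U' rfl
  have hdom : ∀ S : Finset (Fin n), T ⊆ S → ∀ u ∈ G,
      ∃ E : {E : Finset (Fin n) // E.card = r}, u ∈ E.1 ∧
        ∀ i : Fin r, i.val < p → (D E i).1 ∈ S := by
    intro S hTS u hu
    rw [hG, mem_filter] at hu
    obtain ⟨h, hmem, hl⟩ := hu.2.2
    refine ⟨⟨_, h⟩, hmem, fun i hi => ?_⟩
    have h1 := (D ⟨_, h⟩ i).2
    rcases mem_insert.1 h1 with h2 | h2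
    · exact absurd h2 (hl i hi)
    · exact hTS h2
  have hr1 : (1 : ℝ) ≤ r := by exact_mod_cast (by omega : 1 ≤ r)
  have hTr : (T.card : ℝ) ≤ r := by exact_mod_cast (by omega : T.card ≤ r)
  rcases Nat.eq_zero_or_pos U'.card with h0 | h0
  · refine ⟨T, ?_, fun u hu huT => ?_⟩
    · have : (0 : ℝ) ≤ r * r * Real.log m := by positivity
      linarith
    · refine hdom T subset_rfl u ?_
      by_contra huG
      have : u ∈ U' := mem_sdiff.2 ⟨mem_sdiff.2 ⟨hu, huT⟩, huG⟩
      rw [card_eq_zero.1 h0] at this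
      exact notMem_empty _ this
  · refine ⟨T ∪ S', ?_, fun u hu huS => ?_⟩
    · have h1 : ((T ∪ S').card : ℝ) ≤ T.card + S'.card := by exact_mod_cast card_union_le _ _
      have h2 : r * U'.card + m ≤ r * m := by
        obtain ⟨q, rfl⟩ : ∃ q, r = q + 1 := ⟨r - 1, by omega⟩
        simp only [Nat.add_sub_cancel] at hc hT
        have h3 : U.card - q = U'.card + G.card := by omega
        rw [h3] at hT
        rw [← hc]
        nlinarith
      have h2' : (r : ℝ) * U'.card + m ≤ r * m := by exact_mod_cast h2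
      have hpos : (0 : ℝ) < U'.card := by exact_mod_cast h0
      have hmpos : (0 : ℝ) < m := by exact_mod_cast (by omega : 0 < m)
      have h3 : Real.log (U'.card / m) ≤ U'.card / m - 1 :=
        Real.log_le_sub_one_of_pos (by positivity)
      rw [Real.log_div hpos.ne' hmpos.ne'] at h3
      have h4 : (r : ℝ) * (U'.card / m) ≤ r - 1 := by
        rw [← mul_div_assoc, div_le_iff₀ hmpos]
        linarith
      have h5 : (r : ℝ) * (Real.log U'.card - Real.log m) ≤ -1 := by nlinarith
      nlinarith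
    · rw [mem_union, not_or] at huS
      by_cases huG : u ∈ G
      · exact hdom _ subset_union_left u huG
      · obtain ⟨E, hE, h⟩ := hS' u (mem_sdiff.2 ⟨mem_sdiff.2 ⟨hu, huS.1⟩, huG⟩) huS.2
        exact ⟨E, hE, fun i hi => mem_union_right _ (h i hi)⟩

lemma upper_log {n r p : ℕ} (hp : p < r) : (Gamma n r p : ℝ) ≤ r + r * r * Real.log n := by
  have h0 : (0 : ℝ) ≤ r + r * r * Real.log n := by
    have := Real.log_natCast_nonneg n
    positivity
  have h : Gamma n r p ≤ ⌊(r : ℝ) + r * r * Real.log n⌋₊ := by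
    refine Gamma_le (fun D => ?_)
    obtain ⟨S, hS, hdom⟩ := upper_log_aux hp D n univ (by simp)
    exact (gammaD_le_card D S (fun u hu => hdom u (mem_univ u) hu)).trans (Nat.le_floor hS)
  exact le_trans (by exact_mod_cast h) (Nat.floor_le h0)

/-- greedy covering -/
lemma greedy_cover {α : Type} [DecidableEq α] (W : Finset α) (I : α → Finset α) (δ : ℝ)
    (hδ : δ ≤ 1) (hI : ∀ x ∈ W, I x ⊆ W ∧ δ * W.card ≤ (I x).card) (t : ℕ) :
    ∃ S : Finset α, S.card ≤ t ∧
      ((W.filter (fun x => ∀ s ∈ S, s ∉ I x)).card : ℝ) ≤ (1 - δ) ^ t * W.card := by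
  induction t with
  | zero => exact ⟨∅, le_rfl, by simp⟩
  | succ t ih =>
    obtain ⟨S, hS, hc⟩ := ih
    set U := W.filter (fun x => ∀ s ∈ S, s ∉ I x) with hU
    rcases W.eq_empty_or_nonempty with hW | hW
    · exact ⟨∅, by simp, by simp [hW]⟩
    have hsum : ∑ s ∈ W, (δ * U.card : ℝ) ≤ ∑ s ∈ W, ((U.filter (fun x => s ∈ I x)).card : ℝ) := by
      have e1 : ∑ s ∈ W, (U.filter (fun x => s ∈ I x)).card = ∑ x ∈ U, (I x).card := by
        simp only [card_filter]
        rw [sum_comm]
        refine sum_congr rfl (fun x hx => ?_)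
        rw [← card_filter]
        congr 1
        ext s
        simp only [mem_filter, and_iff_right_iff_imp]
        exact fun h => (hI x (mem_filter.1 hx).1).1 h
      have e2 : ∑ s ∈ W, ((U.filter (fun x => s ∈ I x)).card : ℝ) = ∑ x ∈ U, ((I x).card : ℝ) := by
        exact_mod_cast e1
      rw [e2, sum_const, nsmul_eq_mul]
      have e3 : ∑ x ∈ U, (δ * W.card : ℝ) ≤ ∑ x ∈ U, ((I x).card : ℝ) :=
        sum_le_sum (fun x hx => (hI x (mem_filter.1 hx).1).2)
      rw [sum_const, nsmul_eq_mul] at e3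
      linarith
    obtain ⟨s, _, hs⟩ := exists_le_of_sum_le hW hsum
    refine ⟨insert s S, (card_insert_le _ _).trans (by omega), ?_⟩
    have e1 : W.filter (fun x => ∀ s' ∈ insert s S, s' ∉ I x) = U.filter (fun x => ¬ s ∈ I x) := by
      ext x
      simp only [hU, mem_filter, forall_mem_insert]
      tauto
    have e2 := card_filter_add_card_filter_not (s := U) (fun x => s ∈ I x)
    have e3 : ((U.filter (fun x => s ∈ I x)).card : ℝ) +
        (U.filter (fun x => ¬ s ∈ I x)).card = U.card := by exact_mod_cast e2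
    rw [e1, pow_succ]
    have h1 : 0 ≤ 1 - δ := by linarith
    nlinarith

lemma upper_one {n r : ℕ} (hr : 3 ≤ r) (hn : r ≤ n) (m a : ℕ) (hm : 1 ≤ m) (ha : n < m ^ a) :
    Gamma n r 1 ≤ a + m * m + r := by
  classical
  refine Gamma_le (fun D => ?_)
  by_contra hcon
  push Not at hcon
  have hr0 : 0 < r := by omega
  obtain ⟨Sf, hSf⟩ : ∃ Sf : Fin n → Fin n → Prop, ∀ u s, Sf u s ↔
      u ≠ s ∧ ∀ E : {E : Finset (Fin n) // E.card = r}, u ∈ E.1 → (D E ⟨0, hr0⟩).1 ≠ s :=
    ⟨_, fun _ _ => Iff.rfl⟩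
  obtain ⟨N, hNdef⟩ : ∃ N : Finset (Fin n) → Finset (Fin n), ∀ J u, u ∈ N J ↔ ∀ s ∈ J, Sf u s :=
    ⟨fun J => univ.filter (fun u => ∀ s ∈ J, Sf u s), fun J u => by simp⟩
  have hN : ∀ J : Finset (Fin n), J.card ≤ a + m * m + r → (N J).Nonempty := by
    intro J hJ
    have h1 : ¬ IsDom 1 D J := fun h => by
      have := gammaD_le_card D J h
      omega
    unfold IsDom at h1
    push Not at h1
    obtain ⟨u, huJ, hu⟩ := h1
    refine ⟨u, ?_⟩
    rw [hNdef]
    intro s hs
    rw [hSf]
    refine ⟨fun h => huJ (h ▸ hs), fun E hE h => ?_⟩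
    obtain ⟨i, hi, h2⟩ := hu E hE
    have : i = ⟨0, hr0⟩ := Fin.ext (by simp only; omega)
    rw [this, h] at h2
    exact h2 hs
  have hstep : ∃ J : Finset (Fin n), J.card ≤ a ∧ ∀ v, (N J).card ≤ m * (N (insert v J)).card := by
    by_contra h
    push Not at h
    have key : ∀ i, i ≤ a → ∃ J : Finset (Fin n), J.card ≤ i ∧ m ^ i * (N J).card ≤ n := by
      intro i
      induction i with
      | zero =>
        intro _
        refine ⟨∅, le_rfl, ?_⟩
        rw [pow_zero, one_mul]
        exact (card_le_univ _).trans (by simp)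
      | succ i ih =>
        intro hi
        obtain ⟨J, hJ, hc⟩ := ih (by omega)
        obtain ⟨v, hv⟩ := h J (by omega)
        refine ⟨insert v J, (card_insert_le _ _).trans (by omega), ?_⟩
        rw [pow_succ, mul_assoc]
        exact (Nat.mul_le_mul_left _ hv.le).trans hc
    obtain ⟨J, hJ, hc⟩ := key a le_rfl
    have h1 := card_pos.2 (hN J (by omega))
    have h2 : m ^ a * 1 ≤ m ^ a * (N J).card := Nat.mul_le_mul_left _ h1
    omega
  obtain ⟨J, hJ, hJv⟩ := hstep
  have hmpos : (0 : ℝ) < m := by exact_mod_cast hm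
  have hm1 : (1 : ℝ) ≤ m := by exact_mod_cast hm
  have hI : ∀ x, N (insert x J) ⊆ N J ∧ (1 / m : ℝ) * (N J).card ≤ (N (insert x J)).card := by
    intro x
    constructor
    · intro u hu
      rw [hNdef] at hu ⊢
      exact fun s hs => hu s (mem_insert_of_mem hs)
    · have : ((N J).card : ℝ) ≤ m * (N (insert x J)).card := by exact_mod_cast hJv x
      rw [one_div, inv_mul_le_iff₀ hmpos]
      exact this
  obtain ⟨S, hSc, hS⟩ := greedy_cover (N J) (fun x => N (insert x J)) (1 / m)
    (by rw [div_le_one hmpos]; exact hm1) (fun x _ => hI x) (m * m)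
  obtain ⟨Z, -, hZ⟩ := exists_subset_card_eq (s := (univ : Finset (Fin n))) (n := r) (by simpa using hn)
  obtain ⟨u, hu⟩ := hN (S ∪ Z) ((card_union_le _ _).trans (by omega))
  rw [hNdef] at hu
  have hWpos : (0 : ℝ) < (N J).card := by exact_mod_cast card_pos.2 (hN J (by omega))
  have hlt : (1 - 1 / m : ℝ) ^ (m * m) < 1 / m := by
    have h1 : (1 - 1 / m : ℝ) ≤ Real.exp (-(1 / m)) := by
      have := Real.add_one_le_exp (-(1 / (m : ℝ)))
      linarith
    have h2 : 0 ≤ (1 - 1 / m : ℝ) := by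
      rw [sub_nonneg, div_le_one hmpos]; exact hm1
    refine lt_of_le_of_lt (pow_le_pow_left₀ h2 h1 _) ?_
    rw [← Real.exp_nat_mul]
    have h3 : ((m * m : ℕ) : ℝ) * -(1 / m) = -m := by
      push_cast
      field_simp
    rw [h3, Real.exp_neg, one_div]
    refine inv_strictAnti₀ hmpos ?_
    have := Real.add_one_le_exp (m : ℝ)
    linarith
  have hx : ∃ x ∈ N (insert u J), ∃ s ∈ S, s ∈ N (insert x J) := by
    by_contra h
    push Not at h
    have h3 := (hI u).2
    have h4 := mul_lt_mul_of_pos_right hlt hWpos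
    have h5 : ((N (insert u J)).card : ℝ) ≤ (1 - 1 / m) ^ (m * m) * (N J).card := by
      refine le_trans ?_ hS
      refine Nat.cast_le.2 (card_le_card (fun x hx => ?_))
      simp only [mem_filter]
      exact ⟨(hI u).1 hx, h x hx⟩
    linarith
  obtain ⟨x, hx, s, hs, hsx⟩ := hx
  rw [hNdef] at hx hsx
  have hxu := (hSf _ _).1 (hx u (mem_insert_self _ _))
  have hsx' := (hSf _ _).1 (hsx x (mem_insert_self _ _))
  obtain ⟨E, hE1, hE2, hE3⟩ := exists_subsuperset_card_eq (s := {u, s, x}) (t := {u, s, x} ∪ Z)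
    (n := r) subset_union_left (card_le_three.trans hr)
    (hZ ▸ card_le_card subset_union_right)
  have hw := hE2 (D ⟨E, hE3⟩ ⟨0, hr0⟩).2
  have huE : u ∈ E := hE1 (by simp)
  have hsE : s ∈ E := hE1 (by simp)
  have hxE : x ∈ E := hE1 (by simp)
  simp only [mem_union, mem_insert, mem_singleton] at hw
  rcases hw with (h | h | h) | h
  · exact hxu.2 ⟨E, hE3⟩ hxE h
  · exact ((hSf _ _).1 (hu s (mem_union_left _ hs))).2 ⟨E, hE3⟩ huE h
  · exact hsx'.2 ⟨E, hE3⟩ hsE h
  · exact ((hSf _ _).1 (hu _ (mem_union_right _ h))).2 ⟨E, hE3⟩ huE rfl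

end Pool.Agent.H554Z.DD
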