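import Mathlib
import Pool.Agent.H554Z.DD.Upper

set_option autoImplicit false

namespace Pool.Agent.H554Z.DD

lemma log_ge {n : ℕ} {A : ℝ} (h : ⌈Real.exp A⌉₊ ≤ n) : A ≤ Real.log n ∧ (0 : ℝ) < n := by
  have h1 : Real.exp A ≤ n := (Nat.le_ceil _).trans (by exact_mod_cast h)
  have h2 : (0 : ℝ) < n := lt_of_lt_of_le (Real.exp_pos _) h1
  exact ⟨(Real.le_log_iff_exp_le h2).2 h1, h2⟩

lemma two_pow_le {n e : ℕ} (hn : (0 : ℝ) < n) (h : (e : ℝ) ≤ Real.log n) : 2 ^ e ≤ n := by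
  have h1 : Real.exp e ≤ n := (Real.le_log_iff_exp_le hn).1 h
  have h2 : (2 : ℝ) ^ e ≤ Real.exp e := by
    rw [← mul_one (e : ℝ), Real.exp_nat_mul]
    refine pow_le_pow_left₀ (by norm_num) ?_ _
    have := Real.exp_one_gt_d9
    linarith
  exact_mod_cast h2.trans h1

lemma half_le_floor {x : ℝ} (hx : 1 ≤ x) : x / 2 ≤ ⌊x⌋₊ ∧ 1 ≤ ⌊x⌋₊ := by
  have h1 : 1 ≤ ⌊x⌋₊ := Nat.le_floor (by exact_mod_cast hx)
  have h2 : (1 : ℝ) ≤ ⌊x⌋₊ := by exact_mod_cast h1
  have h3 := Nat.lt_floor_add_one x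
  exact ⟨by linarith, h1⟩

theorem theta_log (r p : ℕ) (hpr : p + 1 ≤ r) (h : r + 2 ≤ 2 ^ (p + 1) ∨ TournDom r p) :
    ∃ c C : ℝ, 0 < c ∧ 0 < C ∧ ∃ N : ℕ, ∀ n : ℕ, N ≤ n →
      c * Real.log n ≤ Gamma n r p ∧ (Gamma n r p : ℝ) ≤ C * Real.log n := by
  have hT : TournDom r p := h.elim tournDom_of_le id
  have hr : (1 : ℝ) ≤ r := by exact_mod_cast (by omega : 1 ≤ r)
  refine ⟨1 / 60, r + r * r, by norm_num, by positivity, ⌈Real.exp 30⌉₊, fun n hn => ?_⟩
  obtain ⟨hL, hpos⟩ := log_ge hn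
  constructor
  · obtain ⟨h1, h2⟩ := half_le_floor (x := Real.log n / 30) (by linarith)
    have h3 := Nat.floor_le (a := Real.log n / 30) (by linarith)
    obtain ⟨k, hk⟩ : ∃ k, ⌊Real.log n / 30⌋₊ = k + 1 := ⟨_, (Nat.sub_add_cancel h2).symm⟩
    rw [hk] at h1 h3
    have h4 := lower_tourn (n := n) (k := k) hT (two_pow_le hpos (by push_cast at h3 ⊢; linarith))
    have h5 : ((k + 1 : ℕ) : ℝ) ≤ Gamma n r p := by exact_mod_cast h4
    linarith
  · have := upper_log (n := n) (r := r) (p := p) (by omega)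
    nlinarith

lemma undominated_aux {α : Type} [DecidableEq α] (D : α → α → Prop) (g : ℕ) (hg : 2 ≤ g)
    (hD : ∀ E : Finset α, E.Nonempty → E.card ≤ g → ∃ a ∈ E, ∀ b ∈ E, ¬ D b a) (q : ℕ) :
    ∀ U : Finset α, U.card + 2 ≤ 2 ^ q * (g + 2) →
      ∃ P ⊆ U, P.card ≤ q + 1 ∧ ∀ u ∈ U, u ∉ P → ∃ w ∈ P, ¬ D u w := by
  classical
  have hasym : ∀ u v, D u v → ¬ D v u := by
    intro u v h1 h2
    obtain ⟨a, ha, h⟩ := hD {u, v} (Finset.insert_nonempty _ _) (Finset.card_le_two.trans hg)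
    rw [Finset.mem_insert, Finset.mem_singleton] at ha
    rcases ha with rfl | rfl
    · exact h v (by simp) h2
    · exact h u (by simp) h1
  induction q with
  | zero =>
    intro U hU
    rcases U.eq_empty_or_nonempty with rfl | hne
    · exact ⟨∅, by simp, by simp, by simp⟩
    obtain ⟨a, ha, h⟩ := hD U hne (by omega)
    exact ⟨{a}, by simpa using ha, by simp,
      fun u hu _ => ⟨a, Finset.mem_singleton_self a, h u hu⟩⟩
  | succ q ih =>
    intro U hU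
    rcases U.eq_empty_or_nonempty with rfl | hne
    · exact ⟨∅, by simp, by simp, by simp⟩
    have hsym : ∑ v ∈ U, (U.filter (fun u => D u v)).card =
        ∑ v ∈ U, (U.filter (fun u => D v u)).card := by
      simp only [Finset.card_filter]
      rw [Finset.sum_comm]
    obtain ⟨v, hv, hle⟩ := Finset.exists_le_of_sum_le hne hsym.le
    have htot : (U.filter (fun u => D u v)).card + (U.filter (fun u => D v u)).card + 1 ≤
        U.card := by
      rw [← Finset.card_union_of_disjoint (by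
        rw [Finset.disjoint_filter]
        exact fun u _ h => hasym _ _ h)]
      have h1 : U.filter (fun u => D u v) ∪ U.filter (fun u => D v u) ⊆ U.erase v := by
        intro u hu
        rw [Finset.mem_union, Finset.mem_filter, Finset.mem_filter] at hu
        rw [Finset.mem_erase]
        rcases hu with h | h
        · exact ⟨fun e => hasym _ _ h.2 (by rw [e] at h ⊢; exact h.2), h.1⟩
        · exact ⟨fun e => hasym _ _ h.2 (by rw [e] at h ⊢; exact h.2), h.1⟩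
      have h2 := Finset.card_le_card h1
      rw [Finset.card_erase_of_mem hv] at h2
      have := Finset.card_pos.2 hne
      omega
    obtain ⟨P, hPU, hPc, hP⟩ := ih (U.filter (fun u => D u v)) (by
      rw [pow_succ, mul_right_comm] at hU
      omega)
    refine ⟨insert v P, Finset.insert_subset hv (hPU.trans (Finset.filter_subset _ _)),
      (Finset.card_insert_le _ _).trans (by omega), fun u hu huP => ?_⟩
    rw [Finset.mem_insert, not_or] at huP
    by_cases h : D u v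
    · obtain ⟨w, hw, h2⟩ := hP u (Finset.mem_filter.2 ⟨hu, h⟩) huP.2
      exact ⟨w, Finset.mem_insert_of_mem hw, h2⟩
    · exact ⟨v, Finset.mem_insert_self _ _, h⟩

lemma lower_girth {n g r p k : ℕ} (hg : 2 ≤ g) (hp : 1 ≤ p)
    (hrg : r + 2 ≤ 2 ^ (p - 1) * (g + 2))
    (hn : 2 ^ ((7 * g + 16) * (k + 1) ^ (g - 1)) ≤ n) : k < Gamma n r p := by
  obtain ⟨D, hD1, hD2⟩ := exists_digraph g k n hg hn
  refine lt_Gamma D (fun u => ?_) hD2 (fun E hE => ?_)
  · obtain ⟨a, ha, h⟩ := hD1 {u} (Finset.singleton_nonempty u) (by simp; omega)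
    rw [Finset.mem_singleton] at ha
    subst ha
    exact h a (Finset.mem_singleton_self a)
  · obtain ⟨P, h1, h2, h3⟩ := undominated_aux D g hg hD1 (p - 1) E (by rw [hE]; exact hrg)
    exact ⟨P, h1, by omega, h3⟩

theorem polylog_lower (g r p : ℕ) (hr : 2 ≤ g) (hp : 1 ≤ p) (hrg : r + 2 ≤ 2 ^ (p - 1) * (g + 2)) :
    ∃ c : ℝ, 0 < c ∧ ∃ N : ℕ, ∀ n : ℕ, N ≤ n →
      c * Real.log n ^ (1 / ((g : ℝ) - 1)) ≤ Gamma n r p := by
  set B : ℝ := 7 * g + 16 with hB
  have hBpos : 0 < B := by positivity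
  have hr' : (2 : ℝ) ≤ g := by exact_mod_cast hr
  have hq : ((g - 1 : ℕ) : ℝ) = (g : ℝ) - 1 := by
    rw [Nat.cast_sub (by omega)]; simp
  refine ⟨(1 / 2) / B ^ (1 / ((g : ℝ) - 1)), by positivity, ⌈Real.exp B⌉₊, fun n hn => ?_⟩
  obtain ⟨hL, hpos⟩ := log_ge hn
  have hL0 : 0 ≤ Real.log n := by linarith
  set x := (Real.log n / B) ^ (1 / ((g : ℝ) - 1)) with hx
  have hx1 : 1 ≤ x := Real.one_le_rpow ((one_le_div hBpos).2 hL)
    (by apply div_nonneg <;> linarith)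
  obtain ⟨h1, h2⟩ := half_le_floor hx1
  have h3 := Nat.floor_le (a := x) (by linarith)
  obtain ⟨k, hk⟩ : ∃ k, ⌊x⌋₊ = k + 1 := ⟨_, (Nat.sub_add_cancel h2).symm⟩
  rw [hk] at h1 h3
  have hxp : x ^ (g - 1) = Real.log n / B := by
    rw [hx, ← hq, one_div]
    exact Real.rpow_inv_natCast_pow (by positivity) (by omega)
  have h4 : ((k + 1 : ℕ) : ℝ) ^ (g - 1) ≤ Real.log n / B := by
    rw [← hxp]
    exact pow_le_pow_left₀ (by positivity) h3 _
  have h5 := lower_girth (n := n) (k := k) hr hp hrg (two_pow_le hpos (by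
    rw [le_div_iff₀ hBpos] at h4
    push_cast at h4 ⊢
    linarith))
  have h6 : ((k + 1 : ℕ) : ℝ) ≤ Gamma n r p := by exact_mod_cast h5
  have h7 : x = Real.log n ^ (1 / ((g : ℝ) - 1)) / B ^ (1 / ((g : ℝ) - 1)) := by
    rw [hx, Real.div_rpow hL0 hBpos.le]
  calc _ = x / 2 := by rw [h7]; ring
    _ ≤ _ := h1.trans h6

theorem sublog_upper (r : ℕ) (hr : 3 ≤ r) :
    ∃ C : ℝ, 0 < C ∧ ∃ N : ℕ, ∀ n : ℕ, N ≤ n →
      (Gamma n r 1 : ℝ) ≤ C * (Real.log n / Real.log (Real.log n)) := by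
  refine ⟨16 + r, by positivity, max r ⌈Real.exp 3⌉₊, fun n hn => ?_⟩
  obtain ⟨hL, hpos⟩ := log_ge (le_trans (le_max_right _ _) hn)
  set L := Real.log n with hLdef
  have hLpos : 0 < L := by linarith
  have hll : 0 < Real.log L := Real.log_pos (by linarith)
  set y := L ^ ((1 : ℝ) / 3) with hy
  have hy1 : 1 ≤ y := Real.one_le_rpow (by linarith) (by norm_num)
  have hy3 : y ^ 3 = L := by
    rw [hy, one_div]
    exact Real.rpow_inv_natCast_pow hLpos.le (by norm_num)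
  have hlogy : Real.log y = Real.log L / 3 := by
    rw [hy, Real.log_rpow hLpos]; ring
  have hly : Real.log L ≤ 3 * y := by
    have := Real.log_le_sub_one_of_pos (by linarith : 0 < y)
    linarith
  have hlL : Real.log L ≤ L := by
    have := Real.log_le_sub_one_of_pos hLpos
    linarith
  set Q := L / Real.log L with hQ
  have hQ1 : 1 ≤ Q := (one_le_div hll).2 hlL
  have hm1 : y ≤ ⌈y⌉₊ := Nat.le_ceil y
  have hm2 : (⌈y⌉₊ : ℝ) < y + 1 := Nat.ceil_lt_add_one (by linarith)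
  have hm : 1 ≤ ⌈y⌉₊ := by
    have : (1 : ℝ) ≤ ⌈y⌉₊ := hy1.trans hm1
    exact_mod_cast this
  have ha1 := Nat.lt_floor_add_one (3 * Q)
  have ha2 := Nat.floor_le (a := 3 * Q) (by linarith)
  have hlt : n < ⌈y⌉₊ ^ (⌊3 * Q⌋₊ + 1) := by
    have h1 : (n : ℝ) < y ^ (⌊3 * Q⌋₊ + 1) := by
      rw [← Real.log_lt_log_iff hpos (by positivity), Real.log_pow, hlogy, ← hLdef]
      have h2 : L = 3 * Q * (Real.log L / 3) := by
        rw [hQ]; field_simp
      push_cast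
      have h3 := mul_lt_mul_of_pos_right ha1 (by positivity : 0 < Real.log L / 3)
      linarith
    have h2 : y ^ (⌊3 * Q⌋₊ + 1) ≤ (⌈y⌉₊ : ℝ) ^ (⌊3 * Q⌋₊ + 1) :=
      pow_le_pow_left₀ (by linarith) hm1 _
    exact_mod_cast h1.trans_le h2
  have h := upper_one hr (le_trans (le_max_left _ _) hn) _ _ hm hlt
  have h' : (Gamma n r 1 : ℝ) ≤ (⌊3 * Q⌋₊ + 1) + ⌈y⌉₊ * ⌈y⌉₊ + r := by exact_mod_cast h
  have hyy : y * y ≤ 3 * Q := by
    rw [hQ, ← mul_div_assoc, le_div_iff₀ hll]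
    have := mul_le_mul_of_nonneg_left hly (by positivity : 0 ≤ y * y)
    nlinarith
  have hmm : (⌈y⌉₊ : ℝ) * ⌈y⌉₊ ≤ 4 * (y * y) := by nlinarith
  have hrQ : (r : ℝ) ≤ r * Q := le_mul_of_one_le_right (by positivity) hQ1
  nlinarith

end Pool.Agent.H554Z.DD
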